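import Pool.Agent.Lib.MP_08e64a_al.Main

/-!
There is a ring of the first uncountable cardinality whose right and left Ziegler spectra have
non-homeomorphic Kolmogorov quotients.  Right `R`-modules are left `Rᵐᵒᵖ`-modules.
-/

open Pool.Agent.Lib.MP_08e64a_al

theorem Pool.Agent.Results.MP_08e64a_al.NotHomeo.result :
    ∃ (S : Type) (_ : Ring S), Cardinal.mk S = Cardinal.aleph 1 ∧
      IsEmpty (SeparationQuotient (Zg Sᵐᵒᵖ) ≃ₜ SeparationQuotient (Zg S)) :=
  ⟨R, inferInstance, mk_R, not_homeomorphic⟩
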